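import Pool.Agent.H66.S2.Basic

/-!
# Module DNE: descent for exterior powers
-/

set_option autoImplicit false

namespace Pool.H66.S2

open Filter Topology

/-- Multisets of nonzero complex numbers with the same power sums are equal. -/
theorem DNE_powsum (hVAN : S_VAN) (X Y : Multiset ℂ) (hX : (0 : ℂ) ∉ X) (hY : (0 : ℂ) ∉ Y)
    (h : ∀ n : ℕ, 1 ≤ n → (X.map fun a => a ^ n).sum = (Y.map fun a => a ^ n).sum) : X = Y := by
  classical
  set s : Finset ℂ := X.toFinset ∪ Y.toFinset with hs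
  set φ : ℂ →₀ ℂ := Finsupp.onFinset s (fun e => (X.count e : ℂ) - (Y.count e : ℂ)) (by
    intro e he
    rw [hs, Finset.mem_union, Multiset.mem_toFinset, Multiset.mem_toFinset]
    by_contra hcon
    push Not at hcon
    apply he
    rw [Multiset.count_eq_zero_of_notMem hcon.1, Multiset.count_eq_zero_of_notMem hcon.2]
    simp) with hφ
  have hφe : ∀ e, φ e = (X.count e : ℂ) - (Y.count e : ℂ) := fun e => rfl
  have hsum : ∀ Z : Multiset ℂ, Z.toFinset ⊆ s → ∀ n : ℕ,
      (Z.map fun a => a ^ n).sum = ∑ e ∈ s, (Z.count e : ℂ) * e ^ n := by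
    intro Z hZ n
    rw [Finset.sum_multiset_map_count]
    simp only [nsmul_eq_mul]
    refine Finset.sum_subset hZ fun e _ he => ?_
    rw [Multiset.count_eq_zero_of_notMem (fun h => he (Multiset.mem_toFinset.2 h))]
    simp
  have h0 : φ = 0 := by
    refine hVAN φ ?_ ?_
    · intro e he h0
      subst h0
      have := Finsupp.mem_support_iff.1 he
      rw [hφe, Multiset.count_eq_zero_of_notMem hX, Multiset.count_eq_zero_of_notMem hY] at this
      simp at this
    · intro n hn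
      have h1 : φ.sum (fun e k => k * e ^ n) = ∑ e ∈ s, φ e * e ^ n := by
        refine Finsupp.sum_of_support_subset _ (Finsupp.support_onFinset_subset) _ ?_
        intro i _
        simp
      rw [h1]
      simp only [hφe, sub_mul, Finset.sum_sub_distrib]
      rw [← hsum X Finset.subset_union_left n, ← hsum Y Finset.subset_union_right n, h n hn,
        sub_self]
  ext e
  have h1 : φ e = 0 := by rw [h0]; rfl
  rw [hφe, sub_eq_zero] at h1
  exact_mod_cast h1

/-- The exponent of a complex number with respect to the absolute value of a Frobenius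
element. -/
noncomputable def DNE_lg (A : AData) (v : A.Pl) (a : ℂ) : ℝ :=
  Real.logb (A.ab v (A.Fr v)) ‖a‖

theorem DNE_lg_mul (A : AData) (v : A.Pl) {a b : ℂ} (ha : a ≠ 0) (hb : b ≠ 0) :
    DNE_lg A v (a * b) = DNE_lg A v a + DNE_lg A v b := by
  unfold DNE_lg
  rw [norm_mul, Real.logb_mul (norm_ne_zero_iff.2 ha) (norm_ne_zero_iff.2 hb)]

theorem DNE_lg_bound (A : Aut) (hBAS : S_BAS) (σ : A.Cusp) (v : A.Pl) {a : ℂ}
    (ha : a ∈ A.eig σ (A.frob v)) :
    A.expo σ - 1 / 2 < DNE_lg A.toAData v a ∧ DNE_lg A.toAData v a < A.expo σ + 1 / 2 := by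
  obtain ⟨-, h0, -, -, -, -, -, -, -, -, -, h⟩ := hBAS A
  obtain ⟨h1, h2⟩ := h σ v a ha
  have hb0 := A.ab_pos v (A.Fr v)
  have hb1 := A.Fr_lt v
  have hane : a ≠ 0 := fun h => h0 σ (A.frob v) (h ▸ ha)
  have hapos : 0 < ‖a‖ := norm_pos_iff.2 hane
  constructor
  · have h3 := Real.logb_lt_logb_of_base_lt_one hb0 hb1 hapos h2
    rwa [Real.logb_rpow hb0 hb1.ne] at h3
  · have h3 := Real.logb_lt_logb_of_base_lt_one hb0 hb1 (Real.rpow_pos_of_pos hb0 _) h1
    rwa [Real.logb_rpow hb0 hb1.ne] at h3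

/-- A bound for the exponents. -/
theorem DNE_expo_bound (A : Aut) (P : Multiset A.Cusp) :
    ∃ E : ℝ, 0 ≤ E ∧ ∀ σ ∈ P, |A.expo σ| ≤ E := by
  induction P using Multiset.induction_on with
  | empty => exact ⟨0, le_refl _, by simp⟩
  | cons σ P ih =>
    obtain ⟨E, hE0, hE⟩ := ih
    refine ⟨max E |A.expo σ|, le_max_of_le_left hE0, ?_⟩
    intro w hw
    rcases Multiset.mem_cons.1 hw with rfl | h
    · exact le_max_right _ _
    · exact (hE w h).trans (le_max_left _ _)

/-- The twist of an isobaric representation by a power of the absolute value. -/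
noncomputable def DNE_tw (A : Aut) (S : ℝ) (P : Multiset A.Cusp) : Multiset A.Cusp :=
  P.map (A.mul (A.nrm S))

theorem DNE_tr_nrm (A : Aut) (hBAS : S_BAS) (S : ℝ) (p : A.Pt) :
    A.tr (A.nrm S) p = ((A.ab p.v p.g ^ S : ℝ) : ℂ) := by
  obtain ⟨-, -, -, -, -, -, -, h, -⟩ := hBAS A
  unfold AData.tr
  rw [h, Multiset.sum_singleton]

theorem DNE_eigs_tw (A : Aut) (hBAS : S_BAS) (S : ℝ) (P : Multiset A.Cusp) (p : A.Pt) :
    A.eigs (DNE_tw A S P) p = (A.eigs P p).map fun a => ((A.ab p.v p.g ^ S : ℝ) : ℂ) * a := by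
  have hB := hBAS A
  obtain ⟨-, -, -, -, -, h, -⟩ := hB
  induction P using Multiset.induction_on with
  | empty => simp [DNE_tw, eigs_zero]
  | cons σ P ih =>
    have h1 : DNE_tw A S (σ ::ₘ P) = A.mul (A.nrm S) σ ::ₘ DNE_tw A S P := by
      simp [DNE_tw]
    rw [h1, eigs_cons, eigs_cons, ih, Multiset.map_add, h _ _ _ (A.deg_nrm S),
      DNE_tr_nrm A hBAS]

theorem DNE_sum_tw (A : Aut) (hBAS : S_BAS) (S : ℝ) (P : Multiset A.Cusp) (p : A.Pt) :
    (A.eigs (DNE_tw A S P) p).sum = ((A.ab p.v p.g ^ S : ℝ) : ℂ) * (A.eigs P p).sum := by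
  rw [DNE_eigs_tw A hBAS, Multiset.sum_map_mul_left, Multiset.map_id']

theorem DNE_ne (A : Aut) (hBAS : S_BAS) (P : Multiset A.Cusp) (p : A.Pt) :
    (0 : ℂ) ∉ A.eigs P p := by
  obtain ⟨-, h0, -⟩ := hBAS A
  rw [mem_eigs]
  rintro ⟨σ, _, h⟩
  exact h0 σ p h

theorem DNE_pow (A : Aut) (hBAS : S_BAS) (P : Multiset A.Cusp) (p : A.Pt) (k : ℤ) :
    A.eigs P (p.pow k) = (A.eigs P p).map fun a => a ^ k := by
  obtain ⟨-, -, h, -⟩ := hBAS A
  induction P using Multiset.induction_on with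
  | empty => simp [eigs_zero]
  | cons σ P ih => rw [eigs_cons, eigs_cons, ih, h, Multiset.map_add]

theorem DNE_filter_eigs (A : Aut) (P : Multiset A.Cusp) (p : A.Pt) (r : A.Cusp → Prop)
    [DecidablePred r] (s : ℂ → Prop) [DecidablePred s]
    (h : ∀ w ∈ P, ∀ a ∈ A.eig w p, (s a ↔ r w)) :
    (A.eigs P p).filter s = A.eigs (P.filter r) p := by
  induction P using Multiset.induction_on with
  | empty => simp [eigs_zero]
  | cons σ P ih =>
    rw [eigs_cons, Multiset.filter_add, ih fun w hw => h w (Multiset.mem_cons_of_mem hw)]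
    by_cases hr : r σ
    · rw [Multiset.filter_cons_of_pos _ hr, eigs_cons]
      congr 1
      rw [Multiset.filter_eq_self]
      exact fun a ha => (h σ (Multiset.mem_cons_self _ _) a ha).2 hr
    · rw [Multiset.filter_cons_of_neg _ hr]
      have : (A.eig σ p).filter s = 0 := by
        rw [Multiset.filter_eq_nil]
        exact fun a ha hs => hr ((h σ (Multiset.mem_cons_self _ _) a ha).1 hs)
      rw [this, zero_add]


theorem DNE_esymm_cons (w : ℂ) (X : Multiset ℂ) (k : ℕ) :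
    (w ::ₘ X).esymm (k + 1) = X.esymm (k + 1) + w * X.esymm k := by
  unfold Multiset.esymm
  rw [Multiset.powersetCard_cons, Multiset.map_add, Multiset.sum_add, Multiset.map_map]
  congr 1
  have e : (Multiset.prod ∘ Multiset.cons w) = fun s : Multiset ℂ => w * s.prod := by
    funext s
    simp
  rw [e, Multiset.sum_map_mul_left]

theorem DNE_lg_one (A : AData) (v : A.Pl) : DNE_lg A v 1 = 0 := by
  unfold DNE_lg
  simp

theorem DNE_lg_prod (A : AData) (v : A.Pl) (E : ℝ) (Z : Multiset ℂ) (h0 : ∀ z ∈ Z, z ≠ 0)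
    (hE : ∀ z ∈ Z, |DNE_lg A v z| < E) :
    Z.prod ≠ 0 ∧ |DNE_lg A v Z.prod| ≤ Z.card * E := by
  induction Z using Multiset.induction_on with
  | empty => simp [DNE_lg_one]
  | cons z Z ih =>
    obtain ⟨h1, h2⟩ := ih (fun w hw => h0 w (Multiset.mem_cons_of_mem hw))
      (fun w hw => hE w (Multiset.mem_cons_of_mem hw))
    have hz0 := h0 z (Multiset.mem_cons_self _ _)
    have hz := hE z (Multiset.mem_cons_self _ _)
    rw [Multiset.prod_cons, Multiset.card_cons]
    refine ⟨mul_ne_zero hz0 h1, ?_⟩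
    rw [DNE_lg_mul _ _ hz0 h1]
    refine (abs_add_le _ _).trans ?_
    push_cast
    linarith

theorem s_DNE (hBAS : S_BAS) (hEXP : S_EXP) (hIND : S_IND) (hEXM : S_EXM) (hVAN : S_VAN) :
    S_DNE := by
  intro A k hA P
  classical
  obtain ⟨-, -, hEx, -⟩ := hEXP A
  obtain ⟨hI, -⟩ := hIND A
  have hB := hBAS A
  obtain ⟨hcard, -, -, -, -, -, -, hnrm, -⟩ := hB
  obtain ⟨E₀, hE₀, hE⟩ := DNE_expo_bound A P
  set E : ℝ := E₀ + 1 / 2 with hEdef
  have hEpos : 0 < E := by rw [hEdef]; linarith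
  set K : ℝ := (k + 1) * E with hK
  have hKpos : 0 ≤ K := by positivity
  have hkE : (k:ℝ) * E ≤ K := by rw [hK]; nlinarith
  set S : ℝ := 4 * K + 8 with hS
  obtain ⟨U, hU⟩ := hA (A.nrm S ::ₘ P)
  obtain ⟨U₁, hU₁⟩ := hA P
  have hX : ∀ v, ∀ a ∈ A.eigs P (A.frob v), |DNE_lg A.toAData v a| < E := by
    intro v a ha
    obtain ⟨σ, hσ, ha⟩ := (mem_eigs A.toAData).1 ha
    have h1 := abs_le.1 (hE σ hσ)
    have h2 := DNE_lg_bound A hBAS σ v ha
    rw [abs_lt]
    constructor <;> linarith [h1.1, h1.2, h2.1, h2.2]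
  -- the eigenvalues of `U` at the Frobenius elements
  have hsp : ∀ v, ∃ Z₁ Z₂ : Multiset ℂ, A.eigs U (A.frob v) = Z₁ + Z₂ ∧
      (∀ n : ℕ, 1 ≤ n → (Z₁.map fun a => a ^ n).sum =
        ((A.eigs P (A.frob v)).map fun a => a ^ n).esymm (k + 1)) ∧
      (∀ a ∈ Z₁, |DNE_lg A.toAData v a| ≤ K) ∧
      (∀ a ∈ Z₂, |DNE_lg A.toAData v a - S| ≤ K) := by
    intro v
    have hX0 := DNE_ne A hBAS P (A.frob v)
    set X := A.eigs P (A.frob v) with hXdef
    have hXne : ∀ a ∈ X, a ≠ 0 := fun a ha h => hX0 (h ▸ ha)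
    obtain ⟨Z₁, -, h1, h1'⟩ := hEXM (k + 1) X hX0
    obtain ⟨W, -, h2, h2'⟩ := hEXM k X hX0
    set w : ℂ := ((A.ab v (A.Fr v) ^ S : ℝ) : ℂ) with hw
    have hb0 := A.ab_pos v (A.Fr v)
    have hb1 := A.Fr_lt v
    have hwpos : 0 < A.ab v (A.Fr v) ^ S := Real.rpow_pos_of_pos hb0 _
    have hw0 : w ≠ 0 := by
      rw [hw]
      exact_mod_cast hwpos.ne'
    have hlgw : DNE_lg A.toAData v w = S := by
      unfold DNE_lg
      rw [hw, Complex.norm_real, Real.norm_of_nonneg hwpos.le, Real.logb_rpow hb0 hb1.ne]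
    have hel : ∀ j : ℕ, ∀ e : ℂ, (∃ Z : Multiset ℂ, Z.card = j ∧ (∀ z ∈ Z, z ∈ X) ∧ e = Z.prod) →
        e ≠ 0 ∧ |DNE_lg A.toAData v e| ≤ j * E := by
      rintro j e ⟨Z, rfl, hZ, rfl⟩
      exact DNE_lg_prod A.toAData v E Z (fun z hz => hXne z (hZ z hz))
        (fun z hz => hX v z (hZ z hz))
    refine ⟨Z₁, W.map fun a => w * a, ?_, ?_, ?_, ?_⟩
    · refine DNE_powsum hVAN _ _ (DNE_ne A hBAS U _) ?_ ?_
      · rw [Multiset.mem_add]
        rintro (h | h)
        · exact (hel _ _ (h1' 0 h)).1 rfl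
        · obtain ⟨a, ha, h0⟩ := Multiset.mem_map.1 h
          rcases mul_eq_zero.1 h0 with h | h
          · exact hw0 h
          · exact (hel _ _ (h2' a ha)).1 h
      · intro n hn
        have h3 := hU ((A.frob v).pow n)
        rw [DNE_pow A hBAS, DNE_pow A hBAS, eigs_cons] at h3
        have h4 : A.eig (A.nrm S) (A.frob v) = {w} := hnrm S (A.frob v)
        rw [h4, Multiset.singleton_add, Multiset.map_cons, DNE_esymm_cons] at h3
        simp only [zpow_natCast] at h3
        rw [h3, Multiset.map_add, Multiset.sum_add]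
        have h5 := h1 n
        have h6 := h2 n
        simp only [zpow_natCast] at h5 h6
        rw [h5, Multiset.map_map]
        have h7 : ((fun a : ℂ => a ^ n) ∘ fun a => w * a) = fun a => w ^ n * a ^ n := by
          funext a
          simp [mul_pow]
        rw [h7, Multiset.sum_map_mul_left, h6]
    · intro n hn
      have h5 := h1 n
      simp only [zpow_natCast] at h5
      exact h5
    · intro a ha
      have h8 := (hel _ _ (h1' a ha)).2
      rw [hK]
      push_cast at h8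
      exact h8
    · intro a ha
      obtain ⟨b, hb, rfl⟩ := Multiset.mem_map.1 ha
      obtain ⟨h8, h9⟩ := hel _ _ (h2' b hb)
      rw [DNE_lg_mul _ _ hw0 h8, hlgw, add_sub_cancel_left]
      exact h9.trans hkE
  -- the exponents of the constituents of `U`
  have hexp : ∀ w ∈ U, |A.expo w| < K + 1 / 2 ∨ |A.expo w - S| < K + 1 / 2 := by
    intro w hw
    obtain ⟨Z₁, Z₂, h, -, h1, h2⟩ := hsp A.inf
    have hpos : 0 < (A.eig w (A.frob A.inf)).card := by
      rw [hcard]
      exact A.deg_pos w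
    obtain ⟨a, ha⟩ := Multiset.card_pos_iff_exists_mem.1 hpos
    have hb := DNE_lg_bound A hBAS w A.inf ha
    have ha' : a ∈ A.eigs U (A.frob A.inf) := (mem_eigs A.toAData).2 ⟨w, hw, ha⟩
    rw [h, Multiset.mem_add] at ha'
    rcases ha' with ha' | ha'
    · left
      have := abs_le.1 (h1 a ha')
      rw [abs_lt]
      constructor <;> linarith [this.1, this.2, hb.1, hb.2]
    · right
      have := abs_le.1 (h2 a ha')
      rw [abs_lt]
      constructor <;> linarith [this.1, this.2, hb.1, hb.2]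
  have hfil₁ : U.filter (fun w => A.expo w < S / 2) = U₁ := by
    refine hI _ _ fun v n hn => ?_
    obtain ⟨Z₁, Z₂, h, hz1, h1, h2⟩ := hsp v
    have h4 : (A.eigs U (A.frob v)).filter (fun a => DNE_lg A.toAData v a < S / 2) =
        A.eigs (U.filter fun w => A.expo w < S / 2) (A.frob v) := by
      refine DNE_filter_eigs A U (A.frob v) _ _ fun w hw a ha => ?_
      have hb := DNE_lg_bound A hBAS w v ha
      rcases hexp w hw with h5 | h5 <;> rw [abs_lt] at h5 <;> constructor <;> intro h6 <;>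
        linarith [h5.1, h5.2, hb.1, hb.2]
    have h5 : (A.eigs U (A.frob v)).filter (fun a => DNE_lg A.toAData v a < S / 2) = Z₁ := by
      rw [h, Multiset.filter_add]
      have e1 : Z₁.filter (fun a => DNE_lg A.toAData v a < S / 2) = Z₁ := by
        rw [Multiset.filter_eq_self]
        intro a ha
        have := abs_le.1 (h1 a ha)
        linarith [this.2]
      have e2 : Z₂.filter (fun a => DNE_lg A.toAData v a < S / 2) = 0 := by
        rw [Multiset.filter_eq_nil]
        intro a ha h6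
        have := abs_le.1 (h2 a ha)
        linarith [this.1]
      rw [e1, e2, add_zero]
    rw [DNE_pow A hBAS, ← h4, h5]
    simp only [zpow_natCast]
    rw [hz1 n hn, hU₁, DNE_pow A hBAS]
    simp only [zpow_natCast]
  set V := U.filter fun w => ¬ A.expo w < S / 2 with hV
  have hdec : U = U₁ + V := by
    have e1 := Multiset.filter_add_not (fun w => A.expo w < S / 2) U
    rw [hfil₁] at e1
    exact e1.symm
  refine ⟨DNE_tw A (-S) V, fun p => ?_⟩
  rw [DNE_sum_tw A hBAS]
  have h1 := hU p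
  have h4 : A.eig (A.nrm S) p = {((A.ab p.v p.g ^ S : ℝ) : ℂ)} := hnrm S p
  rw [eigs_cons, h4, Multiset.singleton_add, DNE_esymm_cons] at h1
  have h2 : (A.eigs U p).sum = (A.eigs U₁ p).sum + (A.eigs V p).sum := by
    conv_lhs => rw [hdec]
    rw [eigs_add, Multiset.sum_add]
  rw [h2, hU₁] at h1
  have h3 : (A.eigs V p).sum = ((A.ab p.v p.g ^ S : ℝ) : ℂ) * (A.eigs P p).esymm k := by
    linear_combination h1
  rw [h3]
  have h5 : ((A.ab p.v p.g ^ (-S) : ℝ) : ℂ) * ((A.ab p.v p.g ^ S : ℝ) : ℂ) = 1 := by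
    rw [← Complex.ofReal_mul, ← Real.rpow_add (A.ab_pos _ _)]
    simp
  linear_combination (A.eigs P p).esymm k * h5

end Pool.H66.S2
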