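import Pool.Agent.H66.S2.Basic

/-!
# Module ROW: the empty rows may be omitted
-/

set_option autoImplicit false

namespace Pool.H66.S2

open Filter Topology

theorem s_ROW (hZRO : S_ZRO) : S_ROW := by
  intro r
  induction r with
  | zero =>
    intro lam hlam
    exact ⟨0, lam, hlam, fun j => j.elim0, rfl, fun X => rfl⟩
  | succ r ih =>
    intro lam hlam
    by_cases h0 : lam (Fin.last r) = 0
    · obtain ⟨m, nu, h1, h2, h3, h4⟩ := ih (fun j => lam (Fin.castSucc j))
        (fun i j hij => hlam (Fin.castSucc_le_castSucc_iff.2 hij))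
      refine ⟨m, nu, h1, h2, ?_, fun X => ?_⟩
      · rw [h3, Fin.sum_univ_castSucc, h0, add_zero]
      · rw [← h4 X, ← hZRO r (fun j => lam (Fin.castSucc j)) X]
        have e : lam = (Fin.snoc (α := fun _ => ℕ) (fun j => lam (Fin.castSucc j)) 0 :
            Fin (r + 1) → ℕ) := by
          funext j
          refine Fin.lastCases ?_ (fun i => ?_) j
          · rw [Fin.snoc_last, h0]
          · rw [Fin.snoc_castSucc]
        exact congrArg (fun l => schur l X) e
    · refine ⟨r + 1, lam, hlam, fun j => ?_, rfl, fun X => rfl⟩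
      exact (Nat.one_le_iff_ne_zero.2 h0).trans (hlam (Fin.le_last j))

end Pool.H66.S2
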